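import Mathlib
import Pool.Agent.H598R2.NsRed

/-!
# Shortest induced nonseparating cycles through an edge: NP-hardness

Given a 3-connected graph `G`, an edge `e` of `G` and a number `s`, it is NP-hard to decide whether
`G` has an induced nonseparating cycle of length at most `s` through `e`.  Hence there is no
polynomial-time algorithm that finds a shortest induced nonseparating cycle through a given edge of
a 3-connected graph, unless `P = NP`.

Reduction from 3SAT.  All short cycles through the edge `e = uv` run through `N` layers, each
consisting of the two literals of a variable, and contain exactly one vertex of each layer (the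
false literals).  For every clause, and for one further hub that is attached to all layers, there is
a thick part (legs whose positions carry three twins) attached to its literals; the legs are so long
that short cycles cannot pass through them.  Deleting the cycle leaves a connected graph if and only
if each clause has a literal that is not on the cycle.

Complexity notions are those of `Pool.Agent.NPC.Defs`: polynomial time is Mathlib's
`Turing.TM2ComputableInPolyTime` on bit strings, `NP` is defined by certificates, hardness is under
polynomial-time many-one reductions, and data (numbers in binary, pairs, lists) are coded by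
bit strings (`bits`).  The graph notions are defined in `Pool.Agent.H598R2.NsDefs`.
-/

namespace Pool.Agent.Results.MP_75fd85_lc.NPHardCycle

open Pool.Agent.NPC Pool.Agent.H598R2.Ns

/-- `l` is a shortest induced nonseparating cycle of `G` through the edge `ab`. -/
def IsShortest (G : Graph) (a b : Fin G.1) (l : List (Fin G.1)) : Prop :=
  IsIndNonsep (toG G) a b l ∧ ∀ l', IsIndNonsep (toG G) a b l' → l.length ≤ l'.length

/-- **NP-hardness of shortest induced nonseparating cycles.**

(i) Given a 3-connected graph, an edge `ab` and a number `s`, deciding whether there is an induced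
nonseparating cycle of length at most `s` through `ab` is NP-hard.

(ii) If some polynomial-time algorithm finds, for every 3-connected graph and every edge `ab` of it,
a shortest induced nonseparating cycle through `ab`, then every language in `NP` is decidable in
polynomial time. -/
theorem result :
    NPHardP (fun I : (Graph × (ℕ × ℕ)) × ℕ => IsGraph I.1.1 ∧ ThreeConnected (toG I.1.1) ∧
      ∃ a b : Fin I.1.1.1, a.val = I.1.2.1 ∧ b.val = I.1.2.2 ∧ (toG I.1.1).Adj a b ∧
        ∃ l, IsIndNonsep (toG I.1.1) a b l ∧ l.length ≤ I.2) ∧
    ((∃ A : List Bool → List Bool, PolyTime A ∧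
        ∀ (G : Graph) (a b : Fin G.1), IsGraph G → ThreeConnected (toG G) → (toG G).Adj a b →
          ∃ l, IsShortest G a b l ∧ A (bits (G, (a.val, b.val))) = bits (l.map Fin.val)) →
      ∀ L : Set (List Bool), InNP L → InP L) := by
  have hard := Pool.Agent.NPC.H598R2.NsL.hardPr_ns
  constructor
  · refine HardI.toNPHardP ?_
    intro L hL
    obtain ⟨f, hf, hpr, hfL⟩ := hard L hL
    refine ⟨f, hf, fun x => (hfL x).trans ⟨?_, ?_⟩⟩
    · rintro ⟨a, b, ha, hb, l, hl, hlen⟩
      exact ⟨(hpr x).1, (hpr x).2.1, a, b, ha, hb, hl.1.closing, l, hl, hlen⟩
    · rintro ⟨_, _, a, b, ha, hb, _, l, hl, hlen⟩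
      exact ⟨a, b, ha, hb, l, hl, hlen⟩
  · rintro ⟨A, hA, hAc⟩
    refine Pool.Agent.NPC.H598R2.collapse_out (β := List ℕ) hard hA
      (d := fun p => decide (p.1.length ≤ p.2))
      (Poly.decide_le (Poly.length (Poly.fst Poly.id)) (Poly.snd Poly.id)) ?_
    rintro ⟨⟨G, x, y⟩, s⟩ ⟨hG, h3, a, b, ha, hb, hab⟩
    simp only at hG h3 ha hb hab ⊢
    obtain ⟨l, hl, hbits⟩ := hAc G a b hG h3 hab
    refine ⟨l.map Fin.val, ?_, ?_⟩
    · rw [← ha, ← hb]
      exact hbits
    · rw [List.length_map, decide_eq_true_eq]
      constructor
      · rintro ⟨a', b', ha', hb', l', hl', hlen⟩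
        have ea : a' = a := Fin.ext (ha'.trans ha.symm)
        have eb : b' = b := Fin.ext (hb'.trans hb.symm)
        subst ea
        subst eb
        exact (hl.2 l' hl').trans hlen
      · intro hlen
        exact ⟨a, b, ha, hb, l, hl.1, hlen⟩

end Pool.Agent.Results.MP_75fd85_lc.NPHardCycle
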